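import Pool.Agent.MWN.StmtsH

/-!
# Row NHB of block MWN: basic facts on base (h)
-/

namespace Pool.Agent.MWN.H17

open Pool.Agent.Helper14_MV Pool.Agent.Helper2_MV Pool.Agent.MVO Pool.Agent.MWL Pool.Agent.MWS
  Pool.Agent.MWF

theorem ic_of {β : FIC} (h : HB β) : RR β [0, 1, 0, 1] [1, 0, 1, 0] := by
  have key := h.hst 0 (fun _ => [0, 1, 0, 1]) (fun _ => [1, 0, 1, 0]) ?_ ?_ ?_ ?_ ?_ ?_ ?_
  · exact key
  · refine ⟨?_, ?_⟩
    · intro j _ c hc
      unfold NS
      simp at hc
      omega
    · intro j _ c hc
      simp at hc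
      unfold deg
      have h01 : c = 0 ∨ c = 1 := by omega
      rcases h01 with rfl | rfl <;> simp
  · refine ⟨?_, ?_⟩
    · intro j _ c hc
      unfold NS
      simp at hc
      omega
    · intro j _ c hc
      simp at hc
      unfold deg
      have h01 : c = 0 ∨ c = 1 := by omega
      rcases h01 with rfl | rfl <;> simp
  · intro j _ c hc
    simp at hc
    omega
  · intro j _ c hc
    simp at hc
    omega
  · intro j _
    left
    simp [ty]
  · intro j _
    left
    simp [ty]
  · intro i _ _
    unfold Fst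
    constructor
    · constructor
      · intro h1
        exact absurd (by decide : List.Sublist [1, 0] [0, 1, 0, 1]) h1
      · intro h1
        exact absurd (by decide : List.Sublist [1, 0] [1, 0, 1, 0]) h1
    · constructor
      · intro h1
        exact absurd (by decide : List.Sublist [0, 1] [0, 1, 0, 1]) h1
      · intro h1
        exact absurd (by decide : List.Sublist [0, 1] [1, 0, 1, 0]) h1

theorem nhb (hcap : CapStmt) (hndn : NdnStmt) (hlrn : LrnStmt) : NhbStmt := by
  intro β hB hI
  have hA : ApI β := ⟨hB.ap, ic_of hB⟩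
  have hR : BaseR β := ⟨hA, hB.rr⟩
  have hN : NC2 β := by
    intro h
    have h1 := h.append (RR.refl (β := β) [0])
    have h2 := hI _ h1
    revert h2
    decide
  refine ⟨hR, hN, fun u v huv c => hcap β β hA (fun _ _ h => h) hN u v huv c,
    hlrn β β hR (fun _ _ h => h), hndn β β hA (fun _ _ h => h) hN, ?_⟩
  intro h
  have h1 : RR β [0, 2, 0] [0, 2, 0, 0, 0] := h
  have h2 := h1.sub (fun c => if c = 2 then [1] else [c])
  have h3 : RR β [0, 1, 0] [0, 1, 0, 0, 0] := h2
  have h4 := hI _ h3
  revert h4
  decide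

end Pool.Agent.MWN.H17
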